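import Pool.Agent.TH818.AP.Mv3
import Pool.Agent.TH818.AP.LogZ
import Pool.Agent.TH818.AP.Wp2

/-!
# Logarithms, elliptic logarithms and inverse values of `ζ` at almost all rational points
-/

set_option autoImplicit false

open scoped PeriodPair

namespace Pool.Agent.Results.MP_c9768e_nt.AlmostAllPoints

/-- The Weierstrass zeta function `ζ(z) = ∑ (1/(z-l) + 1/l + z/l²)`, the sum over the lattice (the summand of `l = 0` is
`1/z`, since `1/0 = 0` in Lean). -/
noncomputable def zeta (L : PeriodPair) (z : ℂ) : ℂ := ∑' l : L.lattice, (1 / (z - l) + 1 / l + z / l ^ 2)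

/-- `f` is on `[a, b]` a real analytic branch of the inverse of `exp`, of `℘` or of `ζ`. -/
def IsBranch (L : PeriodPair) (a b : ℝ) (f : ℝ → ℝ) : Prop :=
  AnalyticOnNhd ℝ f (Set.Icc a b) ∧ ((∀ t ∈ Set.Icc a b, Real.exp (f t) = t) ∨
    (∀ t ∈ Set.Icc a b, (f t : ℂ) ∉ L.lattice ∧ ℘[L] (f t) = t) ∨
    (∀ t ∈ Set.Icc a b, (f t : ℂ) ∉ L.lattice ∧ zeta L (f t) = t))

/-- The `n`-tuples `q` of rational numbers `q_j` in `[a_j, b_j]` with denominators at most `T` for which some nonzero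
polynomial in `n + 1` variables with integer coefficients of absolute value at most `T ^ A`, of degree at most `d` in
each variable, takes at `π`, `f_1(q_1)`, …, `f_n(q_n)` a value of absolute value at most `T ^ (-B)`. -/
def Exceptional {n : ℕ} (f : Fin n → ℝ → ℝ) (d : ℕ) (a b : Fin n → ℝ) (A B T : ℝ) : Set (Fin n → ℚ) :=
  {q | (∀ j, a j ≤ q j ∧ q j ≤ b j ∧ ((q j).den : ℝ) ≤ T) ∧
    ∃ P : MvPolynomial (Option (Fin n)) ℤ, P ≠ 0 ∧ (∀ x, P.degreeOf x ≤ d) ∧
      (∀ s, |((P.coeff s : ℤ) : ℝ)| ≤ T ^ A) ∧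
      |MvPolynomial.aeval (fun x : Option (Fin n) => x.elim Real.pi fun j => f j (q j)) P| ≤ T ^ (-B)}

/-- Let `n ≥ 1`, let `L_1, …, L_n` be lattices (for instance all equal), and let `f_j` be on `[a_j, b_j]` a real analytic
branch of the inverse of one of the functions `exp`, `℘_j`, `ζ_j`. Let `d`, `A ≥ 0` and
`β > 2 - 2 / ((d + 1)^(n + 1) + 1)`. There are `B` and `C` such that for all `T ≥ 1` the number of exceptional `n`-tuples is
at most `C T^(2(n - 1) + β)`. -/
theorem result (n d : ℕ) (hn : 1 ≤ n) (L : Fin n → PeriodPair) (a b : Fin n → ℝ) (hab : ∀ j, a j < b j)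
    (f : Fin n → ℝ → ℝ) (hf : ∀ j, IsBranch (L j) (a j) (b j) (f j)) (A β : ℝ) (hA : 0 ≤ A)
    (hβ : 2 - 2 / (((d : ℝ) + 1) ^ (n + 1) + 1) < β) :
    ∃ B C : ℝ, ∀ T : ℝ, 1 ≤ T → (Exceptional f d a b A B T).Finite ∧
      ((Exceptional f d a b A B T).ncard : ℝ) ≤ C * T ^ (2 * ((n : ℝ) - 1) + β) := by
  refine TH818.AP.polysJ f a b hab (fun j => (hf j).1) (fun j => ?_) hn A β hA hβ
  obtain ⟨han, h | h | h⟩ := hf j
  · have ha : 0 < a j := by
      rw [← h (a j) ⟨le_rfl, (hab j).le⟩]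
      exact Real.exp_pos _
    intro P hP
    refine TH818.AP.log_indep d (a j) (b j) ha (hab j) P fun t ht => ?_
    have h1 : Real.log t = f j t := by
      conv_lhs => rw [← h t ht]
      exact Real.log_exp _
    simp only [h1]
    exact hP t ht
  · exact TH818.AP.wp_indep d (hab j) han (fun t ht => (h t ht).1) (fun t ht => (h t ht).2)
  · exact TH818.AP.zt_indep d (hab j) han (fun t ht => (h t ht).1) (fun t ht => (h t ht).2)

end Pool.Agent.Results.MP_c9768e_nt.AlmostAllPoints
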