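import Mathlib
import Pool.Agent.TH813.ZtGen

/-!
# Few points of a rational space have algebraic `ζ`

`L` is a pair of periods `ω₁, ω₂` (independent over `ℝ`), with the lattice
`Ω = L.lattice = ℤ ω₁ + ℤ ω₂`; `℘[L]`, `L.g₂`, `L.g₃` are Mathlib's Weierstrass function and
invariants of `L`.

The case `s = m = 0` of the question is: numbers `p₁, …, pₙ` with `ζ(pᵢ)` algebraic which are
independent over `k` are algebraically independent. So the numbers `p` with `ζ(p)` algebraic should
be rare in every finite-dimensional `ℚ`-space `V` of complex numbers. The theorem bounds their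
number, for every lattice and every `V`. If `g₂`, `g₃` are algebraic then by Schneider's theorem
`℘(p)` is transcendental if `ζ(p)` is algebraic (`p` not in the lattice), and `ζ(p)`, `ζ(q)` are not
both algebraic if `p` and `q` are different and congruent modulo the lattice; so in this case
the theorem, with `F = ℚ(g₂, g₃)` and `f = 0`, bounds the number of all `p` in `V` with `ζ(p)`
algebraic.
-/

set_option autoImplicit false

open Module
open scoped PeriodPair

namespace Pool.Agent.Results.MP_c9768e_nt.FewZetaPoints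

/-- The Weierstrass zeta function `ζ(z) = ∑ (1/(z-l) + 1/l + z/l²)`, the sum over the lattice (the
summand of `l = 0` is `1/z`, since `1/0 = 0` in Lean). -/
noncomputable def ζ (L : PeriodPair) (z : ℂ) : ℂ :=
  ∑' l : L.lattice, (1 / (z - l) + 1 / l + z / l ^ 2)

/-- the bound `N(r, h) = binom(6 r, r) + binom(12 r, 2 r) + … + binom(6 (h+1) r, (h+1) r)` -/
def N (r h : ℕ) : ℕ := ∑ i ∈ Finset.range (h + 1), (6 * ((i + 1) * r)).choose ((i + 1) * r)

open Pool.Agent.TH813 in
/-- **Main result.** Let `F` be a subfield of `ℂ` which contains `g₂`, `g₃`, let `V` be a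
finite-dimensional `ℚ`-space of complex numbers, and let `H` be a subspace which contains all `u`
in `V` which are in the lattice or have `℘(u)` algebraic over `F`. Then for every `ℚ`-linear map
`f : V → ℂ` (for instance `f = 0`) there are at most `N(dim V, dim H)` numbers `q` such that every
`p` in `V` outside the lattice with `ζ(p) + f(p)` algebraic over `F` and `℘(p)` not algebraic over
`F` is congruent to one of the numbers `q` modulo the lattice. -/
theorem result (L : PeriodPair) (F : IntermediateField ℚ ℂ) (h2 : L.g₂ ∈ F) (h3 : L.g₃ ∈ F)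
    (V H : Submodule ℚ ℂ) (hfd : FiniteDimensional ℚ V) (hHV : H ≤ V)
    (hH : ∀ u ∈ V, u ∈ L.lattice ∨ IsAlgebraic F (℘[L] u) → u ∈ H) (f : V →ₗ[ℚ] ℂ) :
    ∃ T : Finset ℂ, T.card ≤ N (finrank ℚ V) (finrank ℚ H) ∧
      ∀ p : V, (p : ℂ) ∉ L.lattice → ¬ IsAlgebraic F (℘[L] p) →
        IsAlgebraic F (ζ L p + f p) → ∃ q ∈ T, (p : ℂ) - q ∈ L.lattice := by
  classical
  set b := finBasis ℚ V with hb
  have hlc : ∀ p : V, ZtFin.lc (fun i => (b i : ℂ)) (b.repr p) = (p : ℂ) := by
    intro p
    rw [ZtFin.lc_apply]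
    have h := congrArg Subtype.val (b.sum_repr p)
    rw [← h]
    push_cast
    rfl
  have hlf : ∀ p : V, ZtFin.lc (fun i => f (b i)) (b.repr p) = f p := by
    intro p
    rw [ZtFin.lc_apply]
    have h := congrArg f (b.sum_repr p)
    rw [← h, map_sum]
    exact Finset.sum_congr rfl (fun i _ => (map_smul f _ _).symm)
  have hsymm : ∀ a : Fin (finrank ℚ V) → ℚ, ZtFin.lc (fun i => (b i : ℂ)) a =
      (b.equivFun.symm a : V) := by
    intro a
    have h4 := hlc (b.equivFun.symm a)
    have h5 : (b.repr (b.equivFun.symm a) : Fin (finrank ℚ V) → ℚ) = a :=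
      b.equivFun.apply_symm_apply a
    rwa [h5] at h4
  -- the subspace in coordinates
  set H' : Submodule ℚ (Fin (finrank ℚ V) → ℚ) := H.comap (ZtFin.lc (fun i => (b i : ℂ))) with hH'
  have hinj : Function.Injective (ZtFin.lc (fun i => (b i : ℂ))) := by
    intro a a' h
    rw [hsymm, hsymm] at h
    exact b.equivFun.symm.injective (Subtype.ext h)
  have : FiniteDimensional ℚ H := Submodule.finiteDimensional_of_le hHV
  have hrank : finrank ℚ H' ≤ finrank ℚ H :=
    LinearMap.finrank_le_finrank_of_injective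
      (f := (ZtFin.lc (fun i => (b i : ℂ))).restrict (p := H') (q := H) (fun x hx => hx))
      (fun x y h => Subtype.ext (hinj (congrArg Subtype.val h)))
  have hnull : ∀ a : Fin (finrank ℚ V) → ℚ, (∀ D ∈ Rel.DF F,
      Ell.om L D (ZtFin.lc (fun i => (b i : ℂ)) a) = 0) → a ∈ H' := by
    intro a ha
    change ZtFin.lc (fun i => (b i : ℂ)) a ∈ H
    have hV : ZtFin.lc (fun i => (b i : ℂ)) a ∈ V := by
      rw [hsymm]
      exact Subtype.mem _
    refine hH _ hV ?_
    by_cases hl : ZtFin.lc (fun i => (b i : ℂ)) a ∈ L.lattice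
    · exact Or.inl hl
    · exact Or.inr (ZtFin.alg_of_killed (fun D hD =>
        (Ell.wp_killed (hD _ h2) (hD _ h3) (ha D hD) hl).1))
  -- the points
  set S₀ : Set (Fin (finrank ℚ V) → ℚ) := {c | ZtFin.lc (fun i => (b i : ℂ)) c ∉ L.lattice ∧
    ¬ IsAlgebraic F (℘[L] (ZtFin.lc (fun i => (b i : ℂ)) c)) ∧
    IsAlgebraic F (Pool.Agent.W245.EB.zt L (ZtFin.lc (fun i => (b i : ℂ)) c) +
      ZtFin.lc (fun i => f (b i)) c)} with hS₀
  set π : (Fin (finrank ℚ V) → ℚ) → ℂ ⧸ L.lattice := fun c =>
    Submodule.Quotient.mk (ZtFin.lc (fun i => (b i : ℂ)) c) with hπ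
  have hrep : ∀ a ∈ π '' S₀, ∃ c ∈ S₀, π c = a := fun a ha => ha
  choose! g hg1 hg2 using hrep
  have hbound : (π '' S₀).encard ≤ (N (finrank ℚ V) (finrank ℚ H) : ℕ) := by
    by_contra hcon
    rw [not_le] at hcon
    obtain ⟨t, hts, ht⟩ := Set.exists_subset_encard_eq (Order.add_one_le_of_lt hcon)
    have hfin : t.Finite := by
      rw [← Set.encard_lt_top_iff, ht]
      exact_mod_cast ENat.natCast_lt_top (N (finrank ℚ V) (finrank ℚ H) + 1)
    have hcard : hfin.toFinset.card = N (finrank ℚ V) (finrank ℚ H) + 1 := by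
      rw [hfin.encard_eq_coe_toFinset_card] at ht
      exact_mod_cast ht
    have key := ZtGen.main (F := F) (L := L) h2 h3 (fun i => (b i : ℂ)) (fun i => f (b i)) H' hnull
      (hfin.toFinset.image g) (by
      intro c hc
      obtain ⟨a, ha, rfl⟩ := Finset.mem_image.1 hc
      exact hg1 a (hts (hfin.mem_toFinset.1 ha))) (by
      intro c hc c' hc' h
      obtain ⟨a, ha, rfl⟩ := Finset.mem_image.1 hc
      obtain ⟨a', ha', rfl⟩ := Finset.mem_image.1 hc'
      have h4 : π (g a) = π (g a') := (Submodule.Quotient.eq _).2 h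
      rw [hg2 a (hts (hfin.mem_toFinset.1 ha)), hg2 a' (hts (hfin.mem_toFinset.1 ha'))] at h4
      rw [h4])
    rw [Finset.card_image_of_injOn, hcard] at key
    · have h5 : ∑ i ∈ Finset.range (finrank ℚ H' + 1),
          (6 * ((i + 1) * finrank ℚ V)).choose ((i + 1) * finrank ℚ V) ≤
          N (finrank ℚ V) (finrank ℚ H) :=
        Finset.sum_le_sum_of_subset (Finset.range_mono (by omega))
      omega
    · intro a ha a' ha' h
      have h4 : π (g a) = π (g a') := by rw [h]
      rwa [hg2 a (hts (hfin.mem_toFinset.1 ha)), hg2 a' (hts (hfin.mem_toFinset.1 ha'))] at h4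
  have hfin : (π '' S₀).Finite := by
    rw [← Set.encard_lt_top_iff]
    exact lt_of_le_of_lt hbound (ENat.natCast_lt_top _)
  refine ⟨hfin.toFinset.image (fun a => ZtFin.lc (fun i => (b i : ℂ)) (g a)), ?_, ?_⟩
  · refine Finset.card_image_le.trans ?_
    rw [hfin.encard_eq_coe_toFinset_card] at hbound
    exact_mod_cast hbound
  · intro p hp hna ha
    have hpS : (b.repr p : Fin (finrank ℚ V) → ℚ) ∈ S₀ := by
      refine ⟨?_, ?_, ?_⟩
      · rw [hlc]
        exact hp
      · rw [hlc]
        exact hna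
      · rw [hlc, hlf, Pool.Agent.W245.EB.zt_of_notMem hp]
        exact ha
    have hmem : π (b.repr p) ∈ π '' S₀ := ⟨_, hpS, rfl⟩
    refine ⟨_, Finset.mem_image.2 ⟨π (b.repr p), hfin.mem_toFinset.2 hmem, rfl⟩, ?_⟩
    have h4 := hg2 _ hmem
    have h5 := (Submodule.Quotient.eq _).1 h4.symm
    rwa [hlc] at h5

end Pool.Agent.Results.MP_c9768e_nt.FewZetaPoints
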