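import Pool.Agent.TH659.HY.Fun2

/-!
# Logarithms, elliptic logarithms and their quasi-logarithms at almost all tuples of rational points
-/

set_option autoImplicit false

open Polynomial

namespace Pool.Agent.Results.MP_c9768e_nt.LogsAndEllipticLogs

/-- The cubic polynomial `4 X ^ 3 - g₂ X - g₃`. -/
noncomputable def cubic (g₂ g₃ : ℝ) : ℝ[X] := C 4 * X ^ 3 - C g₂ * X - C g₃

/-- The elliptic logarithm `u(t) = ∫_c^t ds / √(4 s ^ 3 - g₂ s - g₃)`. -/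
noncomputable def u (g₂ g₃ c : ℝ) (t : ℝ) : ℝ := ∫ s in c..t, 1 / √(4 * s ^ 3 - g₂ * s - g₃)

/-- The quasi-logarithm `v(t) = ∫_c^t s ds / √(4 s ^ 3 - g₂ s - g₃)`. -/
noncomputable def v (g₂ g₃ c : ℝ) (t : ℝ) : ℝ := ∫ s in c..t, s / √(4 * s ^ 3 - g₂ * s - g₃)

/-- The `1 + n (r + 2)` numbers `π`, `u(q_l)`, `v(q_l)` and `log (q_l + x_i)`, `i < r`, `l < n`. -/
noncomputable def numbers {n r : ℕ} (g₂ g₃ c : ℝ) (x : Fin r → ℝ) (q : Fin n → ℚ)
    (z : Option (Fin n × (Fin 2 ⊕ Fin r))) : ℝ :=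
  match z with
  | none => Real.pi
  | some (l, Sum.inl i) => ![u g₂ g₃ c (q l), v g₂ g₃ c (q l)] i
  | some (l, Sum.inr i) => Real.log (q l + x i)

/-- The `n`-tuples `q` of rational numbers in `[a, b]` with denominators at most `T` for which some nonzero polynomial
with integer coefficients of absolute value at most `T ^ A`, of degree at most `d` in each variable, takes at the
`numbers` a value of absolute value at most `T ^ (-B)`. -/
def Exceptional {r : ℕ} (n d : ℕ) (g₂ g₃ c : ℝ) (x : Fin r → ℝ) (a b A B T : ℝ) : Set (Fin n → ℚ) :=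
  {q | (∀ l, a ≤ q l ∧ q l ≤ b ∧ ((q l).den : ℝ) ≤ T) ∧
    ∃ P : MvPolynomial (Option (Fin n × (Fin 2 ⊕ Fin r))) ℤ, P ≠ 0 ∧ (∀ z, P.degreeOf z ≤ d) ∧
      (∀ s, |((P.coeff s : ℤ) : ℝ)| ≤ T ^ A) ∧ |MvPolynomial.aeval (numbers g₂ g₃ c x q) P| ≤ T ^ (-B)}

/-- Let `g₂`, `g₃` be real numbers such that `4 X ^ 3 - g₂ X - g₃` is square-free and positive on `[a, b]`, `a < b`, let
`c` be in `[a, b]`, and let `x_1, …, x_r` be distinct real numbers with `a + x_i > 0`. For `n ≥ 1`, `d`, `A ≥ 0` and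
`β > 2 - 2 / ((d + 1) ^ ((r + 2) n + 1) + 1)` there are `B` and `C` such that for all `T ≥ 1` there are at most
`C T ^ (2 (n - 1) + β)` exceptional `n`-tuples. -/
theorem result {r : ℕ} (n d : ℕ) (hn : 1 ≤ n) (g₂ g₃ : ℝ) (hf : Squarefree (cubic g₂ g₃)) (a b c : ℝ) (hab : a < b)
    (hpos : ∀ t : ℝ, a ≤ t → t ≤ b → 0 < 4 * t ^ 3 - g₂ * t - g₃) (hc : a ≤ c ∧ c ≤ b) (x : Fin r → ℝ)
    (hx : Function.Injective x) (hxa : ∀ i, 0 < a + x i) (A β : ℝ) (hA : 0 ≤ A)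
    (hβ : 2 - 2 / (((d : ℝ) + 1) ^ ((r + 2) * n + 1) + 1) < β) :
    ∃ B C : ℝ, ∀ T : ℝ, 1 ≤ T → (Exceptional n d g₂ g₃ c x a b A B T).Finite ∧
      ((Exceptional n d g₂ g₃ c x a b A B T).ncard : ℝ) ≤ C * T ^ (2 * ((n : ℝ) - 1) + β) := by
  have hev : ∀ t : ℝ, (cubic g₂ g₃).eval t = 4 * t ^ 3 - g₂ * t - g₃ := by
    intro t
    simp [cubic]
  have hdeg : (cubic g₂ g₃).natDegree = 3 := by
    unfold cubic
    compute_degree!
  have hpos' : ∀ t ∈ Set.Icc a b, 0 < (cubic g₂ g₃).eval t := fun t ht => by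
    rw [hev]
    exact hpos t ht.1 ht.2
  obtain ⟨ε, hε, hen⟩ := TH659.HY.enlarge (cubic g₂ g₃) a b hab.le hpos'
  have hen' : ∀ t ∈ Set.Ioo (a - ε) (b + ε), 0 < (cubic g₂ g₃).eval t := fun t ht => hen t ⟨ht.1.le, ht.2.le⟩
  have hc' : c ∈ Set.Ioo (a - ε) (b + ε) := ⟨by linarith [hc.1], by linarith [hc.2]⟩
  have hcard : Fintype.card (Fin 2 ⊕ Fin r) = r + 2 := by
    rw [Fintype.card_sum, Fintype.card_fin, Fintype.card_fin, add_comm]
  obtain ⟨B, C, h⟩ := TH659.AQ.polysR (n := n) (d := d)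
    (TH659.HY.UL (k := 2) (cubic g₂ g₃) c x) a b hab
    (fun i t ht => TH659.HY.UL_an (cubic g₂ g₃) _ _ hen' c hc' x t ⟨by linarith [ht.1], by linarith [ht.2]⟩
      (fun i => by linarith [hxa i, ht.1]) i)
    (TH659.HY.UL_ind (cubic g₂ g₃) hf 2 r d (by omega) a b hab hpos' c hc x hx hxa) hn A β hA
    (by rw [hcard]; exact hβ)
  refine ⟨B, C, fun T hT => ?_⟩
  have heq : ∀ q : Fin n → ℚ, numbers g₂ g₃ c x q = TH659.AQ.vR (TH659.HY.UL (k := 2) (cubic g₂ g₃) c x) q := by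
    intro q
    funext z
    rcases z with _ | ⟨l, i | i⟩
    · rfl
    · fin_cases i
      · show u g₂ g₃ c (q l) = TH659.HY.HI (cubic g₂ g₃) c 0 (q l)
        unfold u TH659.HY.HI
        simp only [hev, pow_zero]
      · show v g₂ g₃ c (q l) = TH659.HY.HI (cubic g₂ g₃) c 1 (q l)
        unfold v TH659.HY.HI
        simp only [hev, pow_one]
    · rfl
  have heq2 : Exceptional n d g₂ g₃ c x a b A B T = TH659.AQ.ExR (n := n) d
      (TH659.HY.UL (k := 2) (cubic g₂ g₃) c x) a b A B T := by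
    unfold Exceptional TH659.AQ.ExR
    simp only [heq]
  rw [heq2]
  exact h T hT

end Pool.Agent.Results.MP_c9768e_nt.LogsAndEllipticLogs
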